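import Mathlib

/-!
# MP_ee7763_co: Orlin's conjecture holds for perfect graphs

Every perfect equistable graph is a general partition graph. The proof uses the weighted form of
perfection (Lovász): if all cliques have `w`-weight at most `k`, then the weight function `w` is a
sum of `k` indicator functions of stable sets.
-/

set_option autoImplicit false

namespace Pool.Agent.Results.MP_ee7763_co.PerfectOrlin

open Finset

/-- A perfect graph: the chromatic number of every induced subgraph is its clique number. -/
def IsPerfect {V : Type} (G : SimpleGraph V) : Prop :=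
  ∀ s : Set V, (G.induce s).chromaticNumber = (G.induce s).cliqueNum

/-- A maximal stable set. -/
def IsMaximalStable {V : Type} (G : SimpleGraph V) (S : Finset V) : Prop :=
  G.IsIndepSet (S : Set V) ∧ ∀ T : Finset V, G.IsIndepSet (T : Set V) → S ⊆ T → T = S

/-- An equistable graph. -/
def IsEquistable {V : Type} (G : SimpleGraph V) : Prop :=
  ∃ φ : V → ℝ, (∀ v, 0 < φ v) ∧ ∀ S : Finset V, IsMaximalStable G S ↔ ∑ v ∈ S, φ v = 1

/-- A general partition graph: there are non-empty sets `f x ⊆ U` such that distinct `x`, `y` are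
adjacent exactly when `f x` and `f y` meet, and such that for every maximal stable set `S` the sets
`f x`, `x ∈ S`, partition `U` (every point of `U` is in `f x` for exactly one `x ∈ S`). -/
def IsGeneralPartition {V : Type} (G : SimpleGraph V) : Prop :=
  ∃ (U : Type) (f : V → Set U), (∀ x, (f x).Nonempty) ∧
    (∀ x y, x ≠ y → (G.Adj x y ↔ (f x ∩ f y).Nonempty)) ∧
    ∀ S : Finset V, IsMaximalStable G S → ∀ p : U, ∃! x, x ∈ S ∧ p ∈ f x

/-- the number of members of `M` that contain `v` -/
noncomputable def cnt {V : Type} (M : Multiset (Finset V)) (v : V) : ℕ :=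
  (M.map fun S : Finset V => (S : Set V).indicator (1 : V → ℕ) v).sum

theorem cnt_cons {V : Type} (S : Finset V) (M : Multiset (Finset V)) (v : V) :
    cnt (S ::ₘ M) v = (S : Set V).indicator 1 v + cnt M v := by
  simp [cnt]

theorem cnt_zero {V : Type} (v : V) : cnt (0 : Multiset (Finset V)) v = 0 := by
  simp [cnt]

section
variable {V : Type} [DecidableEq V]

theorem ind_sum (K S : Finset V) : ∑ v ∈ K, (S : Set V).indicator (1 : V → ℕ) v = (K ∩ S).card := by
  rw [Finset.sum_congr rfl (fun v _ => show (S : Set V).indicator (1 : V → ℕ) v =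
    if v ∈ S then 1 else 0 by simp [Set.indicator_apply]), Finset.sum_ite_mem]
  simp

theorem clique_inter (G : SimpleGraph V) (K S : Finset V) (hK : G.IsClique (K : Set V))
    (hS : G.IsIndepSet (S : Set V)) : (K ∩ S).card ≤ 1 := by
  rw [Finset.card_le_one]
  intro a ha b hb
  rw [Finset.mem_inter] at ha hb
  by_contra hab
  exact hS (by exact_mod_cast ha.2) (by exact_mod_cast hb.2) hab
    (hK (by exact_mod_cast ha.1) (by exact_mod_cast hb.1) hab)

theorem cnt_clique_le (G : SimpleGraph V) (K : Finset V) (hK : G.IsClique (K : Set V))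
    (M : Multiset (Finset V)) (hM : ∀ S ∈ M, G.IsIndepSet (S : Set V)) :
    ∑ v ∈ K, cnt M v ≤ M.card := by
  induction M using Multiset.induction_on with
  | empty => simp [cnt_zero]
  | cons S M ih =>
    simp only [cnt_cons, Finset.sum_add_distrib, Multiset.card_cons]
    have h1 := ih (fun T hT => hM T (Multiset.mem_cons_of_mem hT))
    have h2 := clique_inter G K S hK (hM S (Multiset.mem_cons_self S M))
    rw [ind_sum]
    omega

theorem weighted_base [Fintype V] (G : SimpleGraph V) (hG : IsPerfect G) (w : V → ℕ) (k : ℕ)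
    (hk : ∀ K : Finset V, G.IsClique (K : Set V) → ∑ v ∈ K, w v ≤ k) (hw : ∀ v, w v ≤ 1) :
    ∃ M : Multiset (Finset V), M.card = k ∧ (∀ S ∈ M, G.IsIndepSet (S : Set V)) ∧
      ∀ v, cnt M v = w v := by
  classical
  obtain ⟨s, hs⟩ : ∃ s : Set V, s = {v | w v = 1} := ⟨_, rfl⟩
  have h1 : (G.induce s).cliqueNum ≤ k := by
    obtain ⟨t, ht⟩ := (G.induce s).exists_isNClique_cliqueNum
    rw [← ht.card_eq]
    have h2 := hk (t.map (Function.Embedding.subtype _)) (by
      intro a ha b hb hab
      simp only [Finset.coe_map, Function.Embedding.coe_subtype, Set.mem_image, Finset.mem_coe] at ha hb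
      obtain ⟨a', ha', rfl⟩ := ha
      obtain ⟨b', hb', rfl⟩ := hb
      exact ht.isClique ha' hb' (fun h => hab (congrArg _ h)))
    rw [Finset.sum_map] at h2
    have h3 : ∑ x ∈ t, w ((Function.Embedding.subtype (· ∈ s)) x) = ∑ x ∈ t, 1 := by
      refine Finset.sum_congr rfl fun x _ => ?_
      have h4 : ∀ y ∈ s, w y = 1 := fun y hy => by rw [hs] at hy; exact hy
      exact h4 x.1 x.2
    rw [h3] at h2
    simpa using h2
  have h2 : (G.induce s).Colorable k := by
    rw [← SimpleGraph.chromaticNumber_le_iff_colorable, hG s]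
    exact_mod_cast h1
  obtain ⟨c⟩ := h2
  refine ⟨(Finset.univ : Finset (Fin k)).val.map
    (fun i => Finset.univ.filter (fun v => ∃ h : v ∈ s, c ⟨v, h⟩ = i)), by simp, ?_, ?_⟩
  · intro S hS
    rw [Multiset.mem_map] at hS
    obtain ⟨i, -, rfl⟩ := hS
    intro a ha b hb hab hadj
    simp only [Finset.coe_filter, Finset.mem_univ, true_and, Set.mem_ofPred_eq] at ha hb
    obtain ⟨ha1, ha2⟩ := ha
    obtain ⟨hb1, hb2⟩ := hb
    have h3 : (G.induce s).Adj ⟨a, ha1⟩ ⟨b, hb1⟩ := hadj
    exact c.valid h3 (ha2.trans hb2.symm)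
  · intro v
    unfold cnt
    rw [Multiset.map_map]
    change ∑ i : Fin k, _ = _
    by_cases hv : v ∈ s
    · have hwv : w v = 1 := by rw [hs] at hv; exact hv
      rw [hwv, Finset.sum_eq_single (c ⟨v, hv⟩)]
      · simp [hv]
      · intro i _ hi
        simp only [Function.comp, Set.indicator_apply, Finset.coe_filter, Finset.mem_univ, true_and,
          Set.mem_ofPred_eq, ite_eq_right_iff]
        rintro ⟨h, h3⟩
        exact absurd h3.symm hi
      · intro h
        exact absurd (Finset.mem_univ _) h
    · have hwv : w v = 0 := by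
        have h3 := hw v
        have h4 : w v ≠ 1 := fun h => hv (by rw [hs]; exact h)
        omega
      rw [hwv]
      refine Finset.sum_eq_zero fun i _ => ?_
      simp only [Function.comp, Set.indicator_apply, Finset.coe_filter, Finset.mem_univ, true_and,
        Set.mem_ofPred_eq, ite_eq_right_iff]
      rintro ⟨h, -⟩
      exact absurd h hv

/-- Weighted perfection: if all cliques have weight at most `k`, then `w` is a sum of `k`
indicators of stable sets. -/
theorem weighted [Fintype V] (G : SimpleGraph V) (hG : IsPerfect G) (n : ℕ) :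
    ∀ (w : V → ℕ) (k : ℕ), ∑ v, w v ≤ n →
      (∀ K : Finset V, G.IsClique (K : Set V) → ∑ v ∈ K, w v ≤ k) →
      ∃ M : Multiset (Finset V), M.card = k ∧ (∀ S ∈ M, G.IsIndepSet (S : Set V)) ∧
        ∀ v, cnt M v = w v := by
  classical
  induction n with
  | zero =>
    intro w k hn hk
    refine weighted_base G hG w k hk fun v => ?_
    have := Finset.single_le_sum (f := w) (fun i _ => Nat.zero_le _) (Finset.mem_univ v)
    omega
  | succ n ih =>
    intro w k hn hk
    by_cases hw : ∀ v, w v ≤ 1
    · exact weighted_base G hG w k hk hw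
    · push Not at hw
      obtain ⟨x, hx⟩ := hw
      -- remove one unit at `x`
      obtain ⟨w', hw'⟩ : ∃ w' : V → ℕ, ∀ v, w' v + (if v = x then 1 else 0) = w v := by
        refine ⟨fun v => w v - (if v = x then 1 else 0), fun v => ?_⟩
        by_cases h : v = x
        · subst h; simp only [if_true]; omega
        · simp [h]
      have hsum : ∀ K : Finset V, ∑ v ∈ K, w' v + (if x ∈ K then 1 else 0) = ∑ v ∈ K, w v := by
        intro K
        rw [← Finset.sum_congr rfl (fun v _ => hw' v), Finset.sum_add_distrib]
        congr 1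
        simp
      have hs1 := hsum Finset.univ
      simp only [Finset.mem_univ, if_true] at hs1
      obtain ⟨M, hM1, hM2, hM3⟩ := ih w' k (by omega) (fun K hK => by
        have h1 := hk K hK
        have h2 := hsum K
        omega)
      -- a member of `M` containing `x`
      obtain ⟨S, hSM, hxS⟩ : ∃ S ∈ M, x ∈ S := by
        by_contra hcon
        push Not at hcon
        have h0 : cnt M x = 0 := by
          unfold cnt
          rw [Multiset.sum_eq_zero]
          intro a ha
          rw [Multiset.mem_map] at ha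
          obtain ⟨T, hT, rfl⟩ := ha
          simp [Set.indicator_apply, hcon T hT]
        have h1 := hM3 x
        have h2 := hw' x
        simp only [if_true] at h2
        omega
      obtain ⟨M', rfl⟩ := Multiset.exists_cons_of_mem hSM
      have hSge : ∀ v, (S : Set V).indicator (1 : V → ℕ) v ≤ w' v := fun v => by
        rw [← hM3 v, cnt_cons]; omega
      obtain ⟨w'', hw''⟩ : ∃ w'' : V → ℕ, ∀ v, w'' v + (S : Set V).indicator (1 : V → ℕ) v = w v := by
        refine ⟨fun v => w v - (S : Set V).indicator (1 : V → ℕ) v, fun v => ?_⟩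
        have h1 := hSge v
        have h2 := hw' v
        change w v - (S : Set V).indicator (1 : V → ℕ) v + (S : Set V).indicator (1 : V → ℕ) v = w v
        omega
      have hsum2 : ∀ K : Finset V, ∑ v ∈ K, w'' v + (K ∩ S).card = ∑ v ∈ K, w v := by
        intro K
        rw [← Finset.sum_congr rfl (fun v _ => hw'' v), Finset.sum_add_distrib, ind_sum]
      rw [Multiset.card_cons] at hM1
      have hM'2 : ∀ T ∈ M', G.IsIndepSet (T : Set V) :=
        fun T hT => hM2 T (Multiset.mem_cons_of_mem hT)
      have hS2 := hM2 S (Multiset.mem_cons_self S M')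
      obtain ⟨N, hN1, hN2, hN3⟩ := ih w'' (k - 1) (by
        have h1 := hsum2 Finset.univ
        have h2 : 0 < (Finset.univ ∩ S).card := Finset.card_pos.2 ⟨x, by simp [hxS]⟩
        omega) (fun K hK => by
        have h1 := hk K hK
        have h2 := hsum2 K
        by_cases hxK : x ∈ K
        · have h3 : 0 < (K ∩ S).card := Finset.card_pos.2 ⟨x, by simp [hxS, hxK]⟩
          omega
        · have h3 := hsum K
          simp only [hxK, if_false, add_zero] at h3
          have h4 := cnt_clique_le G K hK M' hM'2
          have h5 : ∑ v ∈ K, w' v = (K ∩ S).card + ∑ v ∈ K, cnt M' v := by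
            rw [← ind_sum, ← Finset.sum_add_distrib]
            refine Finset.sum_congr rfl fun v _ => ?_
            rw [← hM3 v, cnt_cons]
          omega)
      refine ⟨S ::ₘ N, by rw [Multiset.card_cons]; omega, ?_, ?_⟩
      · intro T hT
        rw [Multiset.mem_cons] at hT
        rcases hT with rfl | hT
        · exact hS2
        · exact hN2 T hT
      · intro v
        rw [cnt_cons, hN3 v, ← hw'' v]
        omega

/-- A strong clique: a clique that meets every maximal stable set. -/
def IsStrong (G : SimpleGraph V) (C : Finset V) : Prop :=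
  G.IsClique (C : Set V) ∧ ∀ S : Finset V, IsMaximalStable G S → 0 < (C ∩ S).card

theorem cnt_strong (G : SimpleGraph V) (K : Finset V) (hK : IsStrong G K)
    (M : Multiset (Finset V)) (hM : ∀ S ∈ M, IsMaximalStable G S) :
    ∑ v ∈ K, cnt M v = M.card := by
  induction M using Multiset.induction_on with
  | empty => simp [cnt_zero]
  | cons S M ih =>
    simp only [cnt_cons, Finset.sum_add_distrib, Multiset.card_cons]
    have h1 := ih (fun T hT => hM T (Multiset.mem_cons_of_mem hT))
    have h2 := clique_inter G K S hK.1 (hM S (Multiset.mem_cons_self S M)).1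
    have h3 := hK.2 S (hM S (Multiset.mem_cons_self S M))
    rw [ind_sum]
    omega

theorem exists_max [Fintype V] (G : SimpleGraph V) (S : Finset V)
    (hS : G.IsIndepSet (S : Set V)) : ∃ T, S ⊆ T ∧ IsMaximalStable G T := by
  obtain ⟨T, h1, h2⟩ :=
    (Set.toFinite {T : Finset V | G.IsIndepSet (T : Set V)}).exists_le_maximal hS
  refine ⟨T, h1, h2.prop, fun T' hT' h3 => ?_⟩
  exact Finset.Subset.antisymm (h2.le_of_ge hT' h3) h3

theorem extend_all [Fintype V] (G : SimpleGraph V) (M : Multiset (Finset V))
    (hM : ∀ S ∈ M, G.IsIndepSet (S : Set V)) :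
    ∃ M' : Multiset (Finset V), M'.card = M.card ∧ (∀ S ∈ M', IsMaximalStable G S) ∧
      ∀ v, cnt M v ≤ cnt M' v := by
  induction M using Multiset.induction_on with
  | empty => exact ⟨0, rfl, by simp, fun v => le_rfl⟩
  | cons S M ih =>
    obtain ⟨M', h1, h2, h3⟩ := ih (fun T hT => hM T (Multiset.mem_cons_of_mem hT))
    obtain ⟨T, h4, h5⟩ := exists_max G S (hM S (Multiset.mem_cons_self S M))
    refine ⟨T ::ₘ M', by simp [h1], ?_, fun v => ?_⟩
    · intro R hR
      rw [Multiset.mem_cons] at hR
      rcases hR with rfl | hR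
      · exact h5
      · exact h2 R hR
    · rw [cnt_cons, cnt_cons]
      refine Nat.add_le_add ?_ (h3 v)
      exact Set.indicator_le_indicator_of_subset (by exact_mod_cast h4) (fun _ => Nat.zero_le _) v

theorem cnt_phi [Fintype V] (φ : V → ℝ) (M : Multiset (Finset V)) :
    ∑ v, (cnt M v : ℝ) * φ v = (M.map fun S : Finset V => ∑ v ∈ S, φ v).sum := by
  induction M using Multiset.induction_on with
  | empty => simp [cnt_zero]
  | cons S M ih =>
    rw [Multiset.map_cons, Multiset.sum_cons, ← ih]
    simp only [cnt_cons, Nat.cast_add, add_mul, Finset.sum_add_distrib]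
    congr 1
    rw [Finset.sum_congr rfl (fun v _ => show (((S : Set V).indicator (1 : V → ℕ) v : ℕ) : ℝ) * φ v =
      if v ∈ S then φ v else 0 by simp [Set.indicator_apply]), Finset.sum_ite_mem]
    simp

section main
variable [Fintype V] (G : SimpleGraph V) (hG : IsPerfect G) (φ : V → ℝ) (hpos : ∀ v, 0 < φ v)
  (hφ : ∀ S : Finset V, IsMaximalStable G S ↔ ∑ v ∈ S, φ v = 1)

open Classical in
/-- the multiset of all maximal stable sets -/
noncomputable def allMax : Multiset (Finset V) :=
  (Finset.univ.filter fun S : Finset V => IsMaximalStable G S).val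

theorem mem_allMax (S : Finset V) : S ∈ allMax G ↔ IsMaximalStable G S := by
  simp [allMax]

include hφ in
theorem phi_all (M : Multiset (Finset V)) (hM : ∀ S ∈ M, IsMaximalStable G S) :
    ∑ v, (cnt M v : ℝ) * φ v = M.card := by
  rw [cnt_phi, Multiset.map_congr rfl (fun S hS => (hφ S).1 (hM S hS))]
  simp

theorem cnt_not_strong (K : Finset V) (hK : G.IsClique (K : Set V)) (hns : ¬ IsStrong G K) :
    ∑ v ∈ K, cnt (allMax G) v + 1 ≤ (allMax G).card := by
  have h1 : ∃ S : Finset V, IsMaximalStable G S ∧ (K ∩ S).card = 0 := by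
    by_contra hcon
    push Not at hcon
    exact hns ⟨hK, fun S hS => Nat.pos_of_ne_zero (hcon S hS)⟩
  obtain ⟨S, hS, hKS⟩ := h1
  obtain ⟨M', hM'⟩ := Multiset.exists_cons_of_mem ((mem_allMax G S).2 hS)
  rw [hM', Multiset.card_cons]
  simp only [cnt_cons, Finset.sum_add_distrib, ind_sum, hKS, zero_add]
  refine Nat.add_le_add_right (cnt_clique_le G K hK M' fun T hT => ?_) 1
  have h2 : T ∈ allMax G := by rw [hM']; exact Multiset.mem_cons_of_mem hT
  exact ((mem_allMax G T).1 h2).1

include hG hpos hφ in
theorem vertex_strong (g : V) : ∃ C : Finset V, g ∈ C ∧ IsStrong G C := by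
  by_contra hcon
  push Not at hcon
  obtain ⟨M, hM1, hM2, hM3⟩ := weighted G hG _
    (fun v => (if v = g then 1 else 0) + 2 * cnt (allMax G) v) (2 * (allMax G).card) le_rfl
    (fun K hK => by
      rw [Finset.sum_add_distrib, ← Finset.mul_sum]
      by_cases hs : IsStrong G K
      · have h1 : g ∉ K := fun h => hcon K h hs
        have h2 := cnt_strong G K hs (allMax G) (fun S hS => (mem_allMax G S).1 hS)
        rw [h2]
        simp [h1]
      · have h2 := cnt_not_strong G K hK hs
        have h3 : ∑ v ∈ K, (if v = g then 1 else 0) ≤ 1 := by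
          rw [Finset.sum_ite_eq']
          split_ifs <;> simp
        omega)
  obtain ⟨M', hM'1, hM'2, hM'3⟩ := extend_all G M hM2
  have h1 := phi_all G φ hφ M' hM'2
  have h2 := phi_all G φ hφ (allMax G) (fun S hS => (mem_allMax G S).1 hS)
  have h3 : φ g + 2 * ∑ v, (cnt (allMax G) v : ℝ) * φ v ≤ ∑ v, (cnt M' v : ℝ) * φ v := by
    have h4 : φ g = ∑ v, (if v = g then (1 : ℝ) else 0) * φ v := by simp
    rw [h4, Finset.mul_sum, ← Finset.sum_add_distrib]
    refine Finset.sum_le_sum fun v _ => ?_
    have h5 : ((if v = g then (1 : ℝ) else 0) + 2 * (cnt (allMax G) v : ℝ)) ≤ (cnt M' v : ℝ) := by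
      have h6 : (if v = g then 1 else 0) + 2 * cnt (allMax G) v ≤ cnt M' v :=
        (hM3 v).symm.le.trans (hM'3 v)
      have h7 : (((if v = g then 1 else 0) + 2 * cnt (allMax G) v : ℕ) : ℝ) ≤ (cnt M' v : ℝ) := by
        exact_mod_cast h6
      push_cast at h7
      exact h7
    nlinarith [hpos v]
  rw [h1, h2, hM'1, hM1] at h3
  push_cast at h3
  linarith [hpos g]

include hG hpos hφ in
theorem edge_strong (x y : V) (hxy : G.Adj x y) : ∃ C : Finset V, x ∈ C ∧ y ∈ C ∧ IsStrong G C := by
  by_contra hcon
  push Not at hcon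
  have hne : x ≠ y := hxy.ne
  obtain ⟨M, hM1, hM2, hM3⟩ := weighted G hG _
    (fun v => ((if v = x then 1 else 0) + (if v = y then 1 else 0)) + 2 * cnt (allMax G) v)
    (2 * (allMax G).card + 1) le_rfl
    (fun K hK => by
      rw [Finset.sum_add_distrib, ← Finset.mul_sum, Finset.sum_add_distrib,
        Finset.sum_ite_eq', Finset.sum_ite_eq']
      by_cases hs : IsStrong G K
      · have h2 := cnt_strong G K hs (allMax G) (fun S hS => (mem_allMax G S).1 hS)
        rw [h2]
        by_cases h1 : x ∈ K
        · have h3 : y ∉ K := fun h => hcon K h1 h hs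
          simp [h1, h3]
          omega
        · simp only [h1, if_false]
          split_ifs <;> omega
      · have h2 := cnt_not_strong G K hK hs
        split_ifs <;> omega)
  obtain ⟨M', hM'1, hM'2, hM'3⟩ := extend_all G M hM2
  -- the difference
  have hge : ∀ v, ((if v = x then 1 else 0) + (if v = y then 1 else 0)) + 2 * cnt (allMax G) v ≤
      cnt M' v := fun v => (hM3 v).symm.le.trans (hM'3 v)
  have hle : ∀ v, cnt M' v ≤ 2 * cnt (allMax G) v + 1 := by
    intro v
    obtain ⟨C, hvC, hC⟩ := vertex_strong G hG φ hpos hφ v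
    have h1 := cnt_strong G C hC M' hM'2
    have h2 := cnt_strong G C hC (allMax G) (fun S hS => (mem_allMax G S).1 hS)
    rw [← Finset.add_sum_erase C _ hvC] at h1 h2
    have h3 : 2 * ∑ u ∈ C.erase v, cnt (allMax G) u ≤ ∑ u ∈ C.erase v, cnt M' u := by
      rw [Finset.mul_sum]
      exact Finset.sum_le_sum fun u _ => (Nat.le_add_left _ _).trans (hge u)
    omega
  have h1 := phi_all G φ hφ M' hM'2
  have h2 := phi_all G φ hφ (allMax G) (fun S hS => (mem_allMax G S).1 hS)
  have h3 : ∑ v ∈ Finset.univ.filter (fun v => cnt M' v = 2 * cnt (allMax G) v + 1), φ v = 1 := by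
    rw [Finset.sum_filter]
    have h4 : ∀ v, (if cnt M' v = 2 * cnt (allMax G) v + 1 then φ v else 0) =
        (cnt M' v : ℝ) * φ v - 2 * ((cnt (allMax G) v : ℝ) * φ v) := by
      intro v
      have h5 := hge v
      have h6 := hle v
      split_ifs with h7
      · rw [h7]
        push_cast
        ring
      · have h8 : cnt M' v = 2 * cnt (allMax G) v := by omega
        rw [h8]
        push_cast
        ring
    rw [Finset.sum_congr rfl (fun v _ => h4 v), Finset.sum_sub_distrib, ← Finset.mul_sum, h1, h2,
      hM'1, hM1]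
    push_cast
    ring
  have h4 := ((hφ _).2 h3).1
  have hx : cnt M' x = 2 * cnt (allMax G) x + 1 := by
    have h5 := hge x
    have h6 := hle x
    simp only [if_true] at h5
    omega
  have hy : cnt M' y = 2 * cnt (allMax G) y + 1 := by
    have h5 := hge y
    have h6 := hle y
    simp only [if_true] at h5
    omega
  exact h4 (by simp [hx]) (by simp [hy]) hne hxy

end main

end

/-- **Orlin's conjecture holds for perfect graphs**: every perfect equistable graph is a general
partition graph. -/
theorem result (V : Type) [Fintype V] (G : SimpleGraph V) (hG : IsPerfect G)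
    (he : IsEquistable G) : IsGeneralPartition G := by
  classical
  obtain ⟨φ, hpos, hφ⟩ := he
  refine ⟨{C : Finset V // IsStrong G C}, fun x => {C | x ∈ C.1}, ?_, ?_, ?_⟩
  · intro x
    obtain ⟨C, h1, h2⟩ := vertex_strong G hG φ hpos hφ x
    exact ⟨⟨C, h2⟩, h1⟩
  · intro x y hxy
    constructor
    · intro h
      obtain ⟨C, h1, h2, h3⟩ := edge_strong G hG φ hpos hφ x y h
      exact ⟨⟨C, h3⟩, h1, h2⟩
    · rintro ⟨C, h1, h2⟩
      exact C.2.1 h1 h2 hxy
  · intro S hS C
    obtain ⟨x, hx⟩ := Finset.card_pos.1 (C.2.2 S hS)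
    rw [Finset.mem_inter] at hx
    refine ⟨x, ⟨hx.2, hx.1⟩, fun y hy => ?_⟩
    by_contra hne
    exact hS.1 (by exact_mod_cast hy.1) (by exact_mod_cast hx.2) hne (C.2.1 hy.2 hx.1 hne)

end Pool.Agent.Results.MP_ee7763_co.PerfectOrlin
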